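import Pool.Agent.Helper201_BT.Trans

/-!
Bipartite thickness of complete graphs of order 2 mod 4.

The bipartite thickness of `K_p` equals `(p + 2) / 4` for every `p ≥ 14` with `p ≡ 2 (mod 4)`.

Upper bound: `K_14` is the union of four plane quadrangulations on its 14 vertices (found by
computer, file `Base.lean`), and from `K_n` as a union of `m` quadrangulations with certain marked
faces one gets `K_{n+4}` as a union of `m + 1` such quadrangulations: in every old quadrangulation
each of the four new vertices is put into a marked face and joined to two opposite corners of it,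
and one new quadrangulation is added (files `Insert.lean`, `Step.lean`, `New.lean`, `Ind.lean`).

Lower bound: a planar bipartite graph on `n ≥ 3` vertices has at most `2 n - 4` edges
(file `Lower.lean`).
-/

set_option autoImplicit false

namespace Pool.Agent.Results.MP_a8e10c_co.ExactValue

/-- A graph on a finite vertex set (with at least two vertices) is planar if it is a spanning
subgraph of a connected graph `H` which has a rotation system `σ` (a permutation of the darts,
i.e. of the oriented edges, of `H` which permutes the darts leaving each vertex in a single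
cycle) with `V - E + F = 2`, where `F` is the number of faces, the faces being the cycles of the
composition of `σ` with the reversal of darts. -/
def Planar {V : Type} (G : SimpleGraph V) : Prop :=
  ∃ H : SimpleGraph V, G ≤ H ∧ H.Connected ∧ ∃ σ : Equiv.Perm H.Dart,
    (∀ d : H.Dart, (σ d).fst = d.fst) ∧
    (∀ d d' : H.Dart, d.fst = d'.fst → ∃ n : ℕ, (σ ^ n) d = d') ∧
    (Nat.card V : ℤ) - (Nat.card H.edgeSet : ℤ)
      + (Nat.card (Quotient (Equiv.Perm.SameCycle.setoid
          (σ * Function.Involutive.toPerm SimpleGraph.Dart.symm
            SimpleGraph.Dart.symm_involutive))) : ℤ) = 2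

/-- `G` is the union of `t` subgraphs of `G`, each of them planar and bipartite. -/
def UnionOf {V : Type} (G : SimpleGraph V) (t : ℕ) : Prop :=
  ∃ F : Fin t → SimpleGraph V,
    (∀ i, F i ≤ G ∧ Planar (F i) ∧ (F i).IsBipartite) ∧ ⨆ i, F i = G

/-- For every `p ≥ 14` with `p ≡ 2 (mod 4)` the bipartite thickness of `K_p` is `(p + 2) / 4`. -/
theorem result : ∀ p : ℕ, p % 4 = 2 → 14 ≤ p →
    IsLeast {t : ℕ | UnionOf (⊤ : SimpleGraph (Fin p)) t} ((p + 2) / 4) := by
  intro p hp hp14
  constructor
  · obtain ⟨k, rfl⟩ : ∃ k, p = 14 + 4 * k := ⟨(p - 14) / 4, by omega⟩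
    obtain ⟨F, hF, hU⟩ := Pool.Agent.Helper201_BT.upper_bound k
    have hk : (14 + 4 * k + 2) / 4 = k + 4 := by omega
    rw [hk]
    exact ⟨F, fun i => ⟨le_top, (hF i).1, (hF i).2⟩, hU⟩
  · rintro t ⟨F, hF, hU⟩
    exact Pool.Agent.Helper201_BT.lower_bound hp (by omega) F
      (fun i => ⟨(hF i).2.1, (hF i).2.2⟩) hU

end Pool.Agent.Results.MP_a8e10c_co.ExactValue
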